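import Mathlib
import Pool.Agent.V7H90.MM.Gen
import Pool.Agent.W744.NG.Baire
import Pool.Agent.W744.NG.Comp
import Pool.Agent.W782.NGReal
import Pool.Agent.W782.NGVert

set_option autoImplicit false
set_option linter.unusedSectionVars false

/-!
# MP_7561b1_an, Q2 (positive answer)

The generic extension of a multiply mixing automorphism is multiply mixing.
-/

open MeasureTheory Set Filter Topology
open scoped ENNReal symmDiff

namespace Pool.Agent.Results.MP_7561b1_an.MultipleMixingLiftsH90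

/-- Invertible bimeasurable `m`-preserving maps of `Z` onto itself (representatives of the elements
of `Aut(Z, m)`). -/
def PreAut {Z : Type*} [MeasurableSpace Z] (m : Measure Z) : Type _ :=
  {S : Z ≃ᵐ Z // MeasurePreserving S m m}

/-- `S` is multiply mixing (mixing of all orders): for every `k ≥ 2` and measurable `A_0, …, A_k` the measure
of `A_0 ∩ S^{-n_1} A_1 ∩ … ∩ S^{-n_k} A_k` tends to `m(A_0) ⋯ m(A_k)` as `n_1 → ∞` and `n_{i+1} - n_i → ∞` for
all `i`; here `n_0 = 0`, and the condition on the times is that all the gaps `n_{i+1} - n_i` are at least `N`. -/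
def MultiplyMixing {Z : Type*} [MeasurableSpace Z] (m : Measure Z) (S : Z → Z) : Prop :=
  ∀ k : ℕ, 2 ≤ k → ∀ A : Fin (k + 1) → Set Z, (∀ i, MeasurableSet (A i)) → ∀ ε : ℝ, 0 < ε →
    ∃ N : ℕ, ∀ n : Fin (k + 1) → ℕ, n 0 = 0 → (∀ i : Fin k, n i.castSucc + N ≤ n i.succ) →
      |m.real (⋂ i, S^[n i] ⁻¹' A i) - ∏ i, m.real (A i)| < ε

/-- Measurable cocycles `α : X → Aut(Y, ν)` (representatives): jointly measurable families of
automorphisms of `(Y, ν)`. -/
def PreCocycle (X : Type*) {Y : Type*} [MeasurableSpace X] [MeasurableSpace Y] (ν : Measure Y) : Type _ :=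
  {α : X → PreAut ν // Measurable (fun z : X × Y => (α z.1).1 z.2)}

section
variable {X Y : Type*} [MeasurableSpace X] [MeasurableSpace Y]

/-- Equality of cocycles modulo null sets. -/
def cocEq (μ : Measure X) (ν : Measure Y) : Setoid (PreCocycle X ν) where
  r := fun α β => ∀ᵐ x ∂μ, ∀ᵐ y ∂ν, (α.1 x).1 y = (β.1 x).1 y
  iseqv :=
    { refl := fun α => Eventually.of_forall fun x => Eventually.of_forall fun y => rfl
      symm := fun {α β} h => h.mono fun x hx => hx.mono fun y hy => hy.symm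
      trans := fun {α β γ} h h' => by
        filter_upwards [h, h'] with x h1 h2
        filter_upwards [h1, h2] with y h3 h4
        exact h3.trans h4 }

/-- The space of cocycles modulo null sets. -/
def Cocycle (μ : Measure X) (ν : Measure Y) : Type _ := Quotient (cocEq μ ν)

/-- The class of a representative. -/
def cls (μ : Measure X) {ν : Measure Y} (α : PreCocycle X ν) : Cocycle μ ν := Quotient.mk (cocEq μ ν) α

/-- The classes of the cocycles `β` with `μ {x : ν (α(x)B Δ β(x)B) ≥ ε} < ε`. -/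
def nbd (μ : Measure X) {ν : Measure Y} (α : PreCocycle X ν) (B : Set Y) (ε : ℝ) : Set (Cocycle μ ν) :=
  {q | ∃ β : PreCocycle X ν, cls μ β = q ∧
    μ.real {x | ε ≤ ν.real (((α.1 x).1 '' B) ∆ ((β.1 x).1 '' B))} < ε}

/-- Convergence in measure of cocycles, `Aut(Y, ν)` carrying the weak topology. -/
instance inMeasure (μ : Measure X) (ν : Measure Y) : TopologicalSpace (Cocycle μ ν) :=
  TopologicalSpace.generateFrom
    {U | ∃ (α : PreCocycle X ν) (B : Set Y) (ε : ℝ), MeasurableSet B ∧ 0 < ε ∧ U = nbd μ α B ε}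

/-- The extension `T_α(x, y) = (Tx, α(x)y)`. -/
def ext {μ : Measure X} {ν : Measure Y} (T : PreAut μ) (α : PreCocycle X ν) (z : X × Y) : X × Y :=
  (T.1 z.1, (α.1 z.1).1 z.2)

end

/-! ### proof -/

open Pool.Agent.W744.NG Pool.Agent.W744.NG.Final Pool.Agent.V7H90.MM

theorem chain {k N : ℕ} {n : Fin (k + 1) → ℕ} (h : ∀ i : Fin k, n i.castSucc + N ≤ n i.succ) :
    ∀ j i : Fin (k + 1), i < j → n i + N ≤ n j := by
  intro j
  induction j using Fin.induction with
  | zero => exact fun i hi => absurd hi (Fin.not_lt_zero i)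
  | succ j ih =>
    intro i hi
    have h1 := h j
    rcases lt_or_eq_of_le (Fin.le_castSucc_iff.2 hi) with h2 | h2
    · have := ih i h2
      omega
    · rw [h2]
      exact h1

theorem gap_iff {k N : ℕ} {n : Fin (k + 1) → ℕ} :
    Gap k N n ↔ n 0 = 0 ∧ ∀ i : Fin k, n i.castSucc + N ≤ n i.succ :=
  ⟨fun h => ⟨h.1, fun i => h.2 _ _ (Fin.castSucc_lt_succ)⟩, fun h => ⟨h.1, fun i j hij => chain h.2 j i hij⟩⟩

theorem mm_iff {Z : Type} [MeasurableSpace Z] (m : Measure Z) (S : Z → Z) :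
    MultiplyMixing m S ↔ ∀ k, 2 ≤ k → MixOrd m S k := by
  unfold MultiplyMixing MixOrd
  refine forall_congr' fun k => forall_congr' fun hk => forall_congr' fun A => forall_congr' fun hA =>
    forall_congr' fun ε => forall_congr' fun hε => exists_congr fun N => forall_congr' fun n => ?_
  rw [gap_iff, and_imp]

section
variable {X Y : Type} [MeasurableSpace X] [StandardBorelSpace X] [MeasurableSpace Y] [StandardBorelSpace Y]
  {μ : Measure X} {ν : Measure Y} [IsProbabilityMeasure μ] [IsProbabilityMeasure ν]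

theorem real_img (S S' : AU ν) (h : ∀ᵐ y ∂ν, S.1 y = S'.1 y) (A B : Set Y) :
    ν.real (A ∆ (S.1 '' B)) = ν.real (A ∆ (S'.1 '' B)) := by
  apply measureReal_congr
  exact (ae_eq_refl A).symmDiff (Pool.H359R3.MX.img_ae ν S.1 S'.1 S.2 h B)

theorem mem_nbd (α β : PreCocycle X ν) (B : Set Y) (ε : ℝ) :
    cls μ β ∈ nbd μ α B ε ↔ (β : Coc X ν) ∈ NB μ (α : Coc X ν) B ε := by
  constructor
  · rintro ⟨β', h1, h2⟩
    have h3 : ∀ᵐ x ∂μ, ∀ᵐ y ∂ν, (β'.1 x).1 y = (β.1 x).1 y := Quotient.exact h1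
    show μ.real {x | ε ≤ ν.real (((α.1 x).1 '' B) ∆ ((β.1 x).1 '' B))} < ε
    refine lt_of_le_of_lt (le_of_eq ?_) h2
    apply measureReal_congr
    filter_upwards [h3] with x hx
    apply propext
    have h4 := real_img (β'.1 x) (β.1 x) hx ((α.1 x).1 '' B) B
    show ε ≤ ν.real (((α.1 x).1 '' B) ∆ ((β.1 x).1 '' B)) ↔ ε ≤ ν.real (((α.1 x).1 '' B) ∆ ((β'.1 x).1 '' B))
    rw [← h4]
  · intro h
    exact ⟨β, rfl, h⟩

/-- the class map on the cocycles of the library -/
def clsC (μ : Measure X) (ν : Measure Y) (Φ : Coc X ν) : Cocycle μ ν := cls μ Φ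

theorem cls_surj : Function.Surjective (clsC μ ν) := Quotient.mk_surjective

theorem ind : @IsInducing (Coc X ν) (Cocycle μ ν) (tC μ ν) _ (clsC μ ν) := by
  refine @IsInducing.mk _ _ (tC μ ν) _ _ ?_
  show tC μ ν = TopologicalSpace.induced (clsC μ ν) (TopologicalSpace.generateFrom _)
  rw [induced_generateFrom_eq]
  refine congrArg TopologicalSpace.generateFrom ?_
  ext U
  constructor
  · rintro ⟨α, B, ε, hB, hε, rfl⟩
    refine ⟨nbd μ α B ε, ⟨α, B, ε, hB, hε, rfl⟩, ?_⟩
    ext β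
    exact mem_nbd α β B ε
  · rintro ⟨_, ⟨α, B, ε, hB, hε, rfl⟩, rfl⟩
    refine ⟨α, B, ε, hB, hε, ?_⟩
    ext β
    exact mem_nbd α β B ε

theorem baire [NullSingletonClass μ] [NullSingletonClass ν] : BaireSpace (Cocycle μ ν) := by
  let _ : TopologicalSpace (Coc X ν) := tC μ ν
  have hB : BaireSpace (Coc X ν) :=
    (Bair.main Ind.main (Pool.Agent.W782.NGVert.main Pool.Agent.W782.NGReal.main) Compl.main) X Y μ ν
  have hi : IsInducing (clsC μ ν) := ind
  have hopen : IsOpenMap (clsC μ ν) := by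
    intro U hU
    obtain ⟨V, hV, rfl⟩ := hi.isOpen_iff.1 hU
    rw [image_preimage_eq V cls_surj]
    exact hV
  refine ⟨fun f ho hd => ?_⟩
  have h1 : Dense (⋂ n, clsC μ ν ⁻¹' (f n)) :=
    dense_iInter_of_isOpen_nat (fun n => (ho n).preimage hi.continuous) (fun n => (hd n).preimage hopen)
  have h2 := cls_surj.denseRange.dense_image hi.continuous h1
  refine h2.mono ?_
  rw [← preimage_iInter]
  exact image_preimage_subset _ _

theorem iter_ae {Z : Type} [MeasurableSpace Z] {m : Measure Z} {S S' : Z → Z}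
    (hS : MeasurePreserving S m m) (h : ∀ᵐ z ∂m, S z = S' z) (n : ℕ) : ∀ᵐ z ∂m, S^[n] z = S'^[n] z := by
  induction n with
  | zero => exact Eventually.of_forall fun z => rfl
  | succ n ih =>
    have h3 := hS.quasiMeasurePreserving.ae ih
    filter_upwards [h3, h] with z hz1 hz2
    rw [Function.iterate_succ_apply, Function.iterate_succ_apply, hz1, hz2]

theorem mm_congr {Z : Type} [MeasurableSpace Z] {m : Measure Z} {S S' : Z → Z}
    (hS : MeasurePreserving S m m) (h : ∀ᵐ z ∂m, S z = S' z) (hm : MultiplyMixing m S) :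
    MultiplyMixing m S' := by
  intro k hk A hA ε hε
  obtain ⟨N, hN⟩ := hm k hk A hA ε hε
  refine ⟨N, fun n h0 hn => ?_⟩
  have h1 : m.real (⋂ i, S'^[n i] ⁻¹' A i) = m.real (⋂ i, S^[n i] ⁻¹' A i) := by
    apply measureReal_congr
    have h2 : ∀ᵐ z ∂m, ∀ i, S^[n i] z = S'^[n i] z := ae_all_iff.2 fun i => iter_ae hS h (n i)
    filter_upwards [h2] with z hz
    apply propext
    show z ∈ (⋂ i, S'^[n i] ⁻¹' A i) ↔ z ∈ (⋂ i, S^[n i] ⁻¹' A i)
    simp only [mem_iInter, mem_preimage, hz]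
  rw [h1]
  exact hN n h0 hn

end

/-- **Theorem.** Let `T` be a multiply mixing automorphism of a nonatomic standard probability space
`(X, μ)` and let `(Y, ν)` be a nonatomic standard probability space. Then there is a dense `Gδ` set in
the space of cocycles (modulo null sets, convergence in measure) such that for every cocycle `α` whose
class belongs to it the extension `T_α` is multiply mixing. -/
theorem result {X Y : Type} [MeasurableSpace X] [StandardBorelSpace X] [MeasurableSpace Y]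
    [StandardBorelSpace Y] (μ : Measure X) (ν : Measure Y) [IsProbabilityMeasure μ] [IsProbabilityMeasure ν]
    [NullSingletonClass μ] [NullSingletonClass ν] (T : PreAut μ) (hT : MultiplyMixing μ T.1) :
    ∃ G : Set (Cocycle μ ν), IsGδ G ∧ Dense G ∧
      ∀ α : PreCocycle X ν, cls μ α ∈ G → MultiplyMixing (μ.prod ν) (ext T α) := by
  have hT' := (mm_iff μ T.1).1 hT
  have h1 : MixOrd μ T.1 1 := (hT' 2 le_rfl).pred
  have hBaire : BaireSpace (Cocycle μ ν) := baire
  let _ : TopologicalSpace (Coc X ν) := tC μ ν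
  have h2 : (⋂ k : ℕ, {Φ : Coc X ν | 2 ≤ k → MixOrd (μ.prod ν) (sk (T.1 : X → X) Φ) k}) ∈
      residual (Coc X ν) := by
    rw [countable_iInter_mem]
    intro k
    by_cases hk : 2 ≤ k
    · refine Filter.mem_of_superset (mix_res (ν := ν) T k h1 (hT' k hk)) fun Φ hΦ _ => hΦ
    · refine Filter.mem_of_superset Filter.univ_mem fun Φ _ h => absurd h hk
  have h3 : {q : Cocycle μ ν | ∃ α : PreCocycle X ν, cls μ α = q ∧ MultiplyMixing (μ.prod ν) (ext T α)} ∈
      residual (Cocycle μ ν) := by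
    rw [res_iff (clsC μ ν) ind cls_surj]
    refine Filter.mem_of_superset h2 fun Φ hΦ => ?_
    rw [mem_iInter] at hΦ
    exact ⟨Φ, rfl, (mm_iff _ _).2 fun k hk => hΦ k hk⟩
  obtain ⟨G, hGs, hG, hGd⟩ := mem_residual.1 h3
  refine ⟨G, hG, hGd, fun α hα => ?_⟩
  obtain ⟨β, hβ, hm⟩ := hGs hα
  have h4 : ∀ᵐ x ∂μ, ∀ᵐ y ∂ν, (β.1 x).1 y = (α.1 x).1 y := Quotient.exact hβ
  have h5 : MeasurableSet {z : X × Y | (β.1 z.1).1 z.2 = (α.1 z.1).1 z.2} := measurableSet_eq_fun β.2 α.2
  have h6 : ∀ᵐ z ∂(μ.prod ν), (β.1 z.1).1 z.2 = (α.1 z.1).1 z.2 := by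
    rw [Measure.ae_prod_iff_ae_ae h5]
    exact h4
  refine mm_congr (sk_mp T (β : Coc X ν)) ?_ hm
  filter_upwards [h6] with z hz
  exact Prod.ext rfl hz

end Pool.Agent.Results.MP_7561b1_an.MultipleMixingLiftsH90
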